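import Mathlib
import Pool.Agent.W873.Td.Final
import Pool.Agent.W873.Ns.Sc

set_option autoImplicit false

/-!
# The tree property at `ℵ_{ω+1}` can be destroyed by one Cohen real

The forcing relation is the one of `Pool.Agent.Helper669.Forcing`: a sentence is the set of the
conditions which force it. The forcing extension of the extension by `P` by the forcing
`Add(ω, 1)` is the extension by the product `P × Add(ω, 1)`.

The conditions of the forcing `R` of the proof are sequences `(e β : β ≤ γ)`, for `γ < λ⁺`, of
names for the forcing `Add(ω, 1)`, where `e β` is a name of a function from `β` to `2`, and it is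
forced that the sequence is coherent modulo finite sets.
-/

namespace Pool.Agent.Results.MP_61b266_lc.CohenDestroysTreeProperty

open Cardinal Pool.Agent.Helper669.Forcing

/-- `Add(ω, 1)`: the finite partial functions from `ℕ` to `Bool`, ordered by reverse inclusion -/
def Add1 : Type := {s : Finset (ℕ × Bool) // ∀ a ∈ s, ∀ b ∈ s, a.1 = b.1 → a.2 = b.2}

instance : Preorder Add1 where
  le s t := t.1 ⊆ s.1
  le_refl _ := Finset.Subset.refl _
  le_trans _ _ _ h h' := Finset.Subset.trans h' h

/-- `lam`, as a set of ordinals -/
abbrev Lam (lam : Cardinal.{0}) : Type := lam.ord.ToType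

/-- the cardinal successor `λ⁺` of `lam`, as a set of ordinals -/
abbrev LamPlus (lam : Cardinal.{0}) : Type := (Order.succ lam).ord.ToType

section

variable {P : Type} [Preorder P] {L K : Type} [LinearOrder K]

/-- `φ or ψ` is `not (not φ and not ψ)`. -/
def for' (φ ψ : Set P) : Set P := fnot (fand (fnot φ) (fnot ψ))

/-- In the extension: `L` with the relation named by `R` is a tree of height `K`, and all its
levels are nonempty and have at most `|W|` elements. Here `ℓ` names the level function, with values
in `K`: if `x` is below `y` then the level of `x` is smaller, the relation is transitive, and each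
`y` has exactly one predecessor on each level below its own. -/
def IsTree (W : Type) (R : L → L → Set P) (ℓ : L → K → Set P) : Set P :=
  fand (IsFun ℓ)
  (fand (fall fun x : L => fall fun y : L => fall fun a : K => fall fun b : K =>
    fimp (fand (meets (R x y)) (fand (meets (ℓ x a)) (meets (ℓ y b)))) (fground (a < b)))
  (fand (fall fun x : L => fall fun y : L => fall fun z : L =>
    fimp (fand (meets (R x y)) (meets (R y z))) (meets (R x z)))
  (fand (fall fun y : L => fall fun b : K => fall fun a : K => fall fun _ : a < b =>
    fimp (meets (ℓ y b)) (fex fun x : L => fand (meets (R x y)) (meets (ℓ x a))))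
  (fand (fall fun x : L => fall fun y : L => fall fun z : L => fall fun a : K =>
    fimp (fand (fand (meets (R x z)) (meets (R y z))) (fand (meets (ℓ x a)) (meets (ℓ y a))))
      (fground (x = y)))
  (fand (fall fun a : K => fex fun x : L => meets (ℓ x a))
    (fall fun a : K => fex fun F : W → L → Set P =>
      fand (IsFun F) (fall fun x : L => fimp (meets (ℓ x a))
        (fex fun w : W => meets (F w x)))))))))

/-- In the extension: `B` is a linearly ordered subset of the tree named by `R` and `ℓ` which
meets all levels. -/
def IsCofinalBranch (R : L → L → Set P) (ℓ : L → K → Set P) (B : L → Set P) : Set P :=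
  fand (fall fun x : L => fall fun y : L =>
    fimp (fand (meets (B x)) (meets (B y)))
      (for' (fground (x = y)) (for' (meets (R x y)) (meets (R y x)))))
    (fall fun a : K => fex fun x : L => fand (meets (B x)) (meets (ℓ x a)))

/-- In the extension: `F` is a proper `κ`-complete filter on `X`. -/
def IsCompleteFilter {X : Type} (κ : Cardinal.{0}) (F : (X → Set P) → Set P) : Set P :=
  fand (fall fun A : X → Set P => fall fun A' : X → Set P =>
    fimp (fand (meets (F A)) (fall fun a : X => fimp (meets (A a)) (meets (A' a))))
      (meets (F A')))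
  (fand (fnot (meets (F fun _ => fground False)))
  (fall fun I : Type => fall fun _ : #I < κ => fall fun A : I → X → Set P =>
    fimp (fall fun i : I => meets (F (A i))) (meets (F fun a => fall fun i : I => meets (A i a)))))

/-- In the extension: for each set `A`, the family `U` contains `A` or the complement of `A`. -/
def IsUltra {X : Type} (U : (X → Set P) → Set P) : Set P :=
  fall fun A : X → Set P => for' (meets (U A)) (meets (U fun a => fnot (meets (A a))))

end

section

variable (P : Type) [Preorder P] (lam : Cardinal.{0})

/-- In the extension: `κ` is strongly compact, that is, each `κ`-complete filter on a set can be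
extended to a `κ`-complete ultrafilter. -/
def StronglyCompact (κ : Cardinal.{0}) : Set P :=
  fall fun X : Type => fall fun F : (X → Set P) → Set P => fimp (IsCompleteFilter κ F)
    (fex fun U : (X → Set P) → Set P => fand (IsCompleteFilter κ U) (fand (IsUltra U)
      (fall fun A : X → Set P => fimp (meets (F A)) (meets (U A)))))

/-- The tree property at `λ⁺` holds in the extension: every tree of height `λ⁺` with levels of size
at most `λ` has a cofinal branch. (The underlying set of the tree is any set `L` of the ground
model; in the extension each set is in bijection with such a set.) -/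
def TreeProp : Set P :=
  fall fun L : Type => fall fun R : L → L → Set P => fall fun ℓ : L → LamPlus lam → Set P =>
    fimp (IsTree (Lam lam) R ℓ) (fex fun B : L → Set P => IsCofinalBranch R ℓ B)

/-- In the extension, there is a tree of height `λ⁺` with levels of size at most `λ` without a
cofinal branch: a `λ⁺`-Aronszajn tree. -/
def HasAronszajnTree : Set P :=
  fex fun L : Type => fex fun R : L → L → Set P => fex fun ℓ : L → LamPlus lam → Set P =>
    fand (IsTree (Lam lam) R ℓ) (fall fun B : L → Set P => fnot (IsCofinalBranch R ℓ B))

/-- All uncountable cardinals `ν ≤ λ⁺` of the ground model are cardinals of the extension: no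
function from a set of smaller ground model cardinality `μ` to `ν` is onto. -/
def CardinalsPreserved : Set P :=
  fall fun μ : Cardinal.{0} => fall fun ν : Cardinal.{0} => fall fun _ : μ < ν =>
    fall fun _ : ℵ₀ < ν => fall fun _ : ν ≤ Order.succ lam =>
      fnot (fex fun R : μ.out → ν.out → Set P => fand (IsFun R) (IsOnto R))

/-- All functions of the extension from `λ` to the ground model are in the ground model. -/
def NoNewSequences : Set P :=
  fall fun Z : Type => fall fun E : Lam lam → Z → Set P =>
    fimp (IsFun E) (fex fun g : Lam lam → Z => fall fun a => meets (E a (g a)))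

/-- `P` is `λ⁺`-directed closed: every directed family of at most `λ` conditions has a lower
bound. -/
def DirectedClosed : Prop :=
  ∀ (ι : Type) (D : ι → P), #ι ≤ lam → Nonempty ι → (∀ i j, ∃ k, D k ≤ D i ∧ D k ≤ D j) →
    ∃ p, ∀ i, p ≤ D i

end

/-- The strong compactness of `κ` is indestructible under `κ`-directed closed forcing: if every
directed family of less than `κ` conditions of `Q` has a lower bound, then `κ` is strongly compact
in the extension by `Q`. (The forcing `Q` can be trivial.) -/
def IndestructiblyStronglyCompact (κ : Cardinal.{0}) : Prop :=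
  ∀ (Q : Type) [Preorder Q], (∀ (ι : Type) (D : ι → Q), #ι < κ → Nonempty ι →
    (∀ i j, ∃ k, D k ≤ D i ∧ D k ≤ D j) → ∃ p, ∀ i, p ≤ D i) → ∀ q : Q, q ∈ StronglyCompact Q κ

/-- The tree property at `λ⁺` holds and is indestructible under `λ⁺`-directed closed forcing. -/
def Indestructible (lam : Cardinal.{0}) : Prop :=
  ∀ (Q : Type) [Preorder Q], DirectedClosed Q lam → ∀ q : Q, q ∈ TreeProp Q lam

/-- There is a forcing `R` which adds no new sequences of length `λ` and preserves all cardinals
up to `λ⁺`, such that the tree property holds at `λ⁺` in the extension by `R`, and adding a Cohen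
real to this extension preserves all cardinals up to `λ⁺` and adds a `λ⁺`-Aronszajn tree. -/
def CohenDestructible (lam : Cardinal.{0}) : Prop :=
  ∃ (R : Type) (_ : Preorder R), Nonempty R ∧
    (∀ r : R, r ∈ NoNewSequences R lam ∧ r ∈ CardinalsPreserved R lam ∧ r ∈ TreeProp R lam) ∧
    (∀ a : R × Add1, a ∈ CardinalsPreserved (R × Add1) lam ∧
      a ∈ HasAronszajnTree (R × Add1) lam)

open Pool.Agent.W873 Pool.Agent.W873.Td in
theorem main (lam : Cardinal.{0}) (h0 : ℵ₀ ≤ lam) (h1 : lam < lam ^ ℵ₀)
    (H : Indestructible lam) : CohenDestructible lam := by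
  refine ⟨Rc (Kl lam), inferInstance, nonempty_Rc h0, fun r => ⟨?_, ?_, ?_⟩, fun a => ⟨?_, ?_⟩⟩
  · intro Z E
    refine mem_fimp.2 fun r' _ hr' => ?_
    obtain ⟨r1, hr1, g, hg⟩ := noNew_R h0 Z E r' hr'
    exact ⟨r1, hr1, mem_fex.2 fun r2 hr2 => ⟨r2, le_rfl, g, fun a => down_meets _ _ (hg a) _ hr2⟩⟩
  · intro μ ν hμν _ hν r' _ hr'
    obtain ⟨r1, _, E, hE⟩ := mem_fex.1 hr' r' le_rfl
    refine cards_R h0 (X := μ.out) (Y := ν.out) ?_ ?_ E r1 hE
    · rw [mk_out]
      exact Order.lt_succ_iff.1 (hμν.trans_le hν)
    · rw [mk_out, mk_out]
      exact hμν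
  · exact treeProp_R h0 h1 (fun Q _ hQ q => H Q hQ q) r
  · intro μ ν hμν hν0 hν r' _ hr'
    obtain ⟨r1, _, E, hE⟩ := mem_fex.1 hr' r' le_rfl
    refine cards_C h0 (X := μ.out) (Y := ν.out) ?_ ?_ ?_ E r1 hE
    · rw [mk_out]
      exact Order.lt_succ_iff.1 (hμν.trans_le hν)
    · rw [mk_out, mk_out]
      exact hμν
    · rw [mk_out]
      exact hν0
  · exact aronszajn_C h0 a

/-- If the tree property at `λ⁺` is indestructible under `λ⁺`-directed closed forcing, where
`λ^ω > λ`, for instance `λ = ℵ_ω`, then it is consistent that the tree property holds at `λ⁺` and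
is destroyed by one Cohen real. If `λ` is the supremum of indestructibly strongly compact cardinals
`κ₀ < κ₁ < ...`, then this is the case, so that in this case there is a forcing extension with the
same cardinals up to `λ⁺` in which the tree property holds at `λ⁺` and is destroyed by one Cohen
real. -/
theorem result :
    (Indestructible (ℵ_ Ordinal.omega0) → CohenDestructible (ℵ_ Ordinal.omega0)) ∧
      (∀ lam : Cardinal.{0}, ℵ₀ ≤ lam → lam < lam ^ ℵ₀ → Indestructible lam →
        CohenDestructible lam) ∧
      ∀ κ : ℕ → Cardinal.{0}, StrictMono κ → (∀ n, ℵ₀ < κ n) →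
        (∀ n, IndestructiblyStronglyCompact (κ n)) → CohenDestructible (⨆ n, κ n) := by
  refine ⟨fun H => ?_, main, fun κ hκ hκ0 H => ?_⟩
  · have h0 : ℵ₀ ≤ (ℵ_ Ordinal.omega0 : Cardinal.{0}) := aleph0_le_aleph _
    refine main _ h0 ?_ H
    have h1 := lt_power_cof_ord h0
    rwa [ord_aleph, Ordinal.cof_omega Ordinal.isSuccLimit_omega0, Ordinal.cof_omega0] at h1
  · have h0 : ℵ₀ < ⨆ n, κ n := (hκ0 0).trans_le (le_ciSup (bddAbove_of_small) 0)
    exact main _ h0.le (Pool.Agent.W873.Ns.lt_pow_of_sup hκ rfl)
      (fun Q _ hQ q => Pool.Agent.W873.Ns.treeProp_of_isc hκ hκ0 H rfl hQ q)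

end Pool.Agent.Results.MP_61b266_lc.CohenDestroysTreeProperty
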